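import Mathlib

open Topology Filter Set OnePoint

namespace Pool.Agent.Results.MP_4b6139_gt.Counterexample

universe u v w

/-- `A` is P-embedded in `X`: every continuous map from `A` to a (real) Banach space extends
continuously to `X`. -/
def PEmbedded {X : Type u} [TopologicalSpace X] (A : Set X) : Prop :=
  ∀ (E : Type v) [NormedAddCommGroup E] [NormedSpace ℝ E] [CompleteSpace E] (f : A → E),
    Continuous f → ∃ F : X → E, Continuous F ∧ ∀ a : A, F a = f a

/-- `A` is strongly P-embedded in `X`: `A × Y` is P-embedded in `X × Y` for every space `Y`. -/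
def StronglyPEmbedded {X : Type u} [TopologicalSpace X] (A : Set X) : Prop :=
  ∀ (Y : Type w) [TopologicalSpace Y], PEmbedded.{max u w, v} (A ×ˢ (Set.univ : Set Y))

/-- A Čech-complete space: Tychonoff and a `Gδ` in its Stone-Čech compactification. -/
def CechComplete (A : Type u) [TopologicalSpace A] : Prop :=
  T35Space A ∧ IsGδ (Set.range (stoneCechUnit : A → StoneCech A))

/-- The irrationals with the usual topology. -/
abbrev B : Type := {x : ℝ // Irrational x}

/-- The irrationals with the discrete topology. -/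
def D : Type := {x : ℝ // Irrational x}

instance : TopologicalSpace D := ⊥
instance : DiscreteTopology D := ⟨rfl⟩

def toD (b : B) : D := b
def toB (d : D) : B := d

/-- The Michael line: the reals with every irrational point isolated. -/
def ML : Type := ℝ

instance : TopologicalSpace ML where
  IsOpen U := ∀ x : ℝ, (x ∈ (U : Set ℝ)) → ¬ Irrational x → (U : Set ℝ) ∈ 𝓝 x
  isOpen_univ := fun x _ _ => univ_mem
  isOpen_inter := fun U V hU hV x hx hi => inter_mem (hU x hx.1 hi) (hV x hx.2 hi)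
  isOpen_sUnion := by
    intro S hS x hx hi
    obtain ⟨U, hU, hxU⟩ := hx
    exact mem_of_superset (hS U hU x hxU hi) (subset_sUnion_of_mem hU)

/-- the identity map to the Michael line -/
def toML (x : ℝ) : ML := x
/-- the identity map from the Michael line -/
def ofML (x : ML) : ℝ := x

lemma ML_isOpen_iff (U : Set ML) :
    IsOpen U ↔ ∀ x : ℝ, toML x ∈ U → ¬ Irrational x → toML ⁻¹' U ∈ 𝓝 x := Iff.rfl

lemma continuous_ofML : Continuous ofML := by
  rw [continuous_def]
  intro U hU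
  rw [ML_isOpen_iff]
  intro x hx _
  exact hU.mem_nhds hx

lemma isOpen_singleton_irr {x : ℝ} (hx : Irrational x) : IsOpen ({toML x} : Set ML) := by
  rw [ML_isOpen_iff]
  intro y hy hy'
  have : y = x := hy
  subst this
  exact absurd hx hy'

lemma preimage_mem_nhds {q : ℝ} (hq : ¬ Irrational q) {V : Set ML} (hV : V ∈ 𝓝 (toML q)) :
    toML ⁻¹' V ∈ 𝓝 q := by
  obtain ⟨W, hWV, hW, hqW⟩ := mem_nhds_iff.1 hV
  exact mem_of_superset (hW q hqW hq) (preimage_mono hWV)

/-- The ambient space. -/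
abbrev X : Type := B × OnePoint D

/-- The Alexandroff duplicate of the irrationals, as a subset of `X`. -/
def A : Set X := {p | p.2 = ∞ ∨ p.2 = OnePoint.some (toD p.1)}

lemma mem_nhds_infty_iff (T : Set (OnePoint D)) :
    T ∈ 𝓝 (∞ : OnePoint D) ↔ ∞ ∈ T ∧ {b : D | (b : OnePoint D) ∉ T}.Finite := by
  rw [nhds_infty_eq, coclosedCompact_eq_cocompact, cocompact_eq_cofinite]
  simp only [mem_sup, mem_map, mem_cofinite, mem_pure]
  constructor
  · rintro ⟨h1, h2⟩; exact ⟨h2, h1⟩
  · rintro ⟨h1, h2⟩; exact ⟨h2, h1⟩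

lemma nhds_some (d : D) : 𝓝 (OnePoint.some d) = pure (OnePoint.some d) := by
  rw [nhds_coe_eq, nhds_discrete, map_pure]

lemma isClosed_A : IsClosed A := by
  rw [← isOpen_compl_iff, isOpen_iff_mem_nhds]
  rintro ⟨b, t⟩ hbt
  have h1 : t ≠ ∞ := fun h => hbt (Or.inl h)
  obtain ⟨d, rfl⟩ := ne_infty_iff_exists.1 h1
  have h2 : toB d ≠ b := fun h => hbt (Or.inr (by subst h; rfl))
  have h3 : ({toB d}ᶜ : Set B) ∈ 𝓝 b := isOpen_compl_singleton.mem_nhds (fun h => h2 h.symm)
  have h4 : ({OnePoint.some d} : Set (OnePoint D)) ∈ 𝓝 (OnePoint.some d) := by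
    rw [nhds_some]; exact mem_pure.2 rfl
  refine mem_of_superset (prod_mem_nhds h3 h4) ?_
  rintro ⟨b', t'⟩ ⟨hb', ht'⟩ hA
  simp only [mem_singleton_iff] at ht'
  subst ht'
  rcases hA with hA | hA
  · exact coe_ne_infty d hA
  · have : d = toD b' := OnePoint.coe_injective hA
    exact hb' (by rw [mem_singleton_iff, this]; rfl)

/-! ### Čech-completeness -/

lemma gdelta {C Z K : Type} [TopologicalSpace C] [TopologicalSpace Z] [CompactSpace Z]
    [T2Space Z] [TopologicalSpace K] [CompactSpace K] [T2Space K] (π : C → Z)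
    (hπ : Continuous π) (ι : C → K) (hι : Continuous ι) (G : Set Z) (hG : IsGδ G)
    (hπG : ∀ c, π c ∈ G) (hind : IsInducing (fun c => (π c, ι c)))
    (hcl : ∀ p : Z × K, p.1 ∈ G → p ∈ closure (range fun c => (π c, ι c)) →
      p ∈ range (fun c => (π c, ι c))) :
    IsGδ (range (stoneCechUnit : C → StoneCech C)) := by
  have hrange : range (stoneCechUnit : C → StoneCech C) = stoneCechExtend hπ ⁻¹' G := by
    apply Subset.antisymm
    · rintro _ ⟨c, rfl⟩
      rw [mem_preimage, stoneCechExtend_stoneCechUnit]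
      exact hπG c
    · intro p hp
      have hne : (comap (stoneCechUnit : C → StoneCech C) (𝓝 p)).NeBot :=
        comap_neBot fun s hs => by
          obtain ⟨_, hx, ⟨c, rfl⟩⟩ := mem_closure_iff_nhds.1 (denseRange_stoneCechUnit p) s hs
          exact ⟨c, hx⟩
      have hcont : Continuous (fun q : StoneCech C => (stoneCechExtend hπ q, stoneCechExtend hι q)) :=
        (continuous_stoneCechExtend hπ).prodMk (continuous_stoneCechExtend hι)
      have ht : Tendsto (fun c => (π c, ι c)) (comap (stoneCechUnit : C → StoneCech C) (𝓝 p))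
          (𝓝 (stoneCechExtend hπ p, stoneCechExtend hι p)) := by
        have := (hcont.tendsto p).comp
          (tendsto_comap (f := (stoneCechUnit : C → StoneCech C)) (x := 𝓝 p))
        refine this.congr ?_
        intro c
        simp [stoneCechExtend_stoneCechUnit]
      have hmem : (stoneCechExtend hπ p, stoneCechExtend hι p) ∈
          closure (range fun c => (π c, ι c)) :=
        mem_closure_of_tendsto ht (Eventually.of_forall fun c => mem_range_self c)
      obtain ⟨c, hc⟩ := hcl (stoneCechExtend hπ p, stoneCechExtend hι p) hp hmem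
      rw [← hc] at ht
      have hle : comap (stoneCechUnit : C → StoneCech C) (𝓝 p) ≤ 𝓝 c := by
        rw [hind.nhds_eq_comap, ← tendsto_iff_comap]
        exact ht
      have h1 : Tendsto (stoneCechUnit : C → StoneCech C)
          (comap (stoneCechUnit : C → StoneCech C) (𝓝 p)) (𝓝 (stoneCechUnit c)) :=
        (continuous_stoneCechUnit.tendsto c).mono_left hle
      exact ⟨c, tendsto_nhds_unique h1 tendsto_comap⟩
  rw [hrange]
  exact hG.preimage (continuous_stoneCechExtend hπ)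

lemma cechComplete_A : CechComplete A := by
  refine ⟨inferInstance, ?_⟩
  have hind0 : IsInducing (fun p : X => (((p.1.1 : ℝ) : EReal), p.2)) := by
    have h1 : IsInducing (fun b : B => ((b.1 : ℝ) : EReal)) :=
      EReal.isEmbedding_coe.isInducing.comp IsInducing.subtypeVal
    exact h1.prodMap IsInducing.id
  refine gdelta (fun a : A => ((a.1.1.1 : ℝ) : EReal))
    (continuous_coe_real_ereal.comp (by fun_prop)) (fun a : A => a.1.2)
    (by fun_prop) (({⊥, ⊤} ∪ range (fun q : ℚ => ((q : ℝ) : EReal)))ᶜ) ?_ ?_ ?_ ?_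
  · apply Set.Countable.isGδ_compl
    exact (Set.toFinite _).countable.union (countable_range _)
  · rintro a (h | ⟨q, hq⟩)
    · rcases h with h | h
      · exact EReal.coe_ne_bot _ h
      · exact EReal.coe_ne_top _ h
    · simp only [EReal.coe_eq_coe_iff] at hq
      exact a.1.1.2 ⟨q, hq⟩
  · exact hind0.comp IsInducing.subtypeVal
  · rintro ⟨z, t⟩ hz hcl
    have hz1 : z ≠ ⊥ := fun h => hz (Or.inl (Or.inl h))
    have hz2 : z ≠ ⊤ := fun h => hz (Or.inl (Or.inr h))
    lift z to ℝ using ⟨hz2, hz1⟩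
    have hirr : Irrational z := by
      rintro ⟨q, hq⟩
      exact hz (Or.inr ⟨q, by simp [hq]⟩)
    have h1 : ((⟨z, hirr⟩ : B), t) ∈ closure A := by
      rw [hind0.closure_eq_preimage_closure_image]
      rw [mem_preimage]
      convert hcl using 2
      ext p
      constructor
      · rintro ⟨a, ha, rfl⟩
        exact ⟨⟨a, ha⟩, rfl⟩
      · rintro ⟨a, rfl⟩
        exact ⟨a.1, a.2, rfl⟩
    rw [isClosed_A.closure_eq] at h1
    exact ⟨⟨_, h1⟩, rfl⟩

/-! ### P-embeddedness -/

lemma memA_infty (b : B) : ((b, ∞) : X) ∈ A := Or.inl rfl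
lemma memA_some (d : D) : ((toB d, OnePoint.some d) : X) ∈ A := Or.inr rfl

section PEmb

variable {E : Type v} [NormedAddCommGroup E]

def fi (f : A → E) (b : B) : E := f ⟨(b, ∞), memA_infty b⟩
def fd (f : A → E) (d : D) : E := f ⟨(toB d, OnePoint.some d), memA_some d⟩
def hh (f : A → E) (d : D) : E := fd f d - fi f (toB d)

lemma hlim (f : A → E) (hf : Continuous f) (b0 : B) (ε : ℝ) (hε : 0 < ε) :
    ∃ δ > 0, ∃ S : Set D, S.Finite ∧ ∀ d ∉ S, dist (toB d) b0 < δ → ‖hh f d‖ < ε := by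
  have h1 : ∀ᶠ a in 𝓝 (⟨(b0, ∞), memA_infty b0⟩ : A), dist (f a) (fi f b0) < ε / 2 :=
    Metric.tendsto_nhds.1 (hf.tendsto _) _ (half_pos hε)
  rw [nhds_subtype_eq_comap, eventually_comap, nhds_prod_eq] at h1
  obtain ⟨U, hU, T, hT, hUT⟩ := mem_prod_iff.1 h1
  obtain ⟨δ, hδ, hball⟩ := Metric.mem_nhds_iff.1 hU
  rw [mem_nhds_infty_iff] at hT
  refine ⟨δ, hδ, _, hT.2, ?_⟩
  intro d hd hdist
  have hd' : OnePoint.some d ∈ T := by
    by_contra h
    exact hd h
  have h2 := @hUT (toB d, OnePoint.some d) ⟨hball hdist, hd'⟩ ⟨_, memA_some d⟩ rfl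
  have h3 := @hUT (toB d, ∞) ⟨hball hdist, hT.1⟩ ⟨_, memA_infty _⟩ rfl
  have h4 : ‖hh f d‖ = dist (fd f d) (fi f (toB d)) := by rw [dist_eq_norm]; rfl
  rw [h4]
  calc dist (fd f d) (fi f (toB d)) ≤ dist (fd f d) (fi f b0) + dist (fi f (toB d)) (fi f b0) :=
        dist_triangle_right _ _ _
    _ < ε / 2 + ε / 2 := add_lt_add h2 h3
    _ = ε := by ring

lemma countable_supp (f : A → E) (hf : Continuous f) : {d : D | hh f d ≠ 0}.Countable := by
  have h1 : {d : D | hh f d ≠ 0} ⊆ ⋃ n : ℕ, {d : D | 1 / ((n : ℝ) + 1) ≤ ‖hh f d‖} := by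
    intro d hd
    have : 0 < ‖hh f d‖ := norm_pos_iff.2 hd
    obtain ⟨n, hn⟩ := exists_nat_one_div_lt this
    exact mem_iUnion.2 ⟨n, hn.le⟩
  refine (countable_iUnion fun n => ?_).mono h1
  choose δ hδ S hS hdS using fun b0 => hlim f hf b0 (1 / ((n : ℝ) + 1)) (by positivity)
  obtain ⟨s, hs, hsU⟩ := TopologicalSpace.countable_cover_nhds
    (f := fun b : B => Metric.ball b (δ b)) (fun b => Metric.ball_mem_nhds b (hδ b))
  refine (hs.biUnion (t := fun b _ => S b) (fun b _ => (hS b).countable)).mono ?_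
  intro d hd
  have : toB d ∈ ⋃ x ∈ s, Metric.ball x (δ x) := by rw [hsU]; trivial
  obtain ⟨b, hb, hdb⟩ := mem_iUnion₂.1 this
  refine mem_iUnion₂.2 ⟨b, hb, ?_⟩
  by_contra hcon
  exact absurd (hdS b d hcon hdb) (not_lt.2 hd)

lemma continuous_fi (f : A → E) (hf : Continuous f) : Continuous (fi f) := by
  have h1 : Continuous (fun b : B => (b, (∞ : OnePoint D))) := by fun_prop
  exact hf.comp (h1.subtype_mk memA_infty)

variable [NormedSpace ℝ E]

/-- The correction term of the extension. -/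
noncomputable def corr (f : A → E) (N : D → ℕ) (p : X) : E :=
  p.2.elim 0 (fun d => (max 0 (1 - (N d : ℝ) * dist (toB d) p.1)) • hh f d)

lemma corr_infty (f : A → E) (N : D → ℕ) (b : B) : corr f N (b, ∞) = 0 := rfl
lemma corr_some (f : A → E) (N : D → ℕ) (b : B) (d : D) : corr f N (b, OnePoint.some d) =
    (max 0 (1 - (N d : ℝ) * dist (toB d) b)) • hh f d := rfl

lemma continuous_corr (f : A → E) (hf : Continuous f) (N : D → ℕ)
    (hN : InjOn N {d : D | hh f d ≠ 0}) : Continuous (corr f N) := by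
  rw [continuous_iff_continuousAt]
  rintro ⟨b0, t0⟩
  induction t0 using OnePoint.rec with
  | infty =>
    rw [ContinuousAt, Metric.tendsto_nhds]
    intro ε hε
    obtain ⟨δ, hδ, S, hS, hdS⟩ := hlim f hf b0 ε hε
    have hS' : {d : D | hh f d ≠ 0 ∧ (N d : ℝ) ≤ 2 / δ}.Finite := by
      refine Set.Finite.of_finite_image (f := N) ?_ (hN.mono fun d hd => hd.1)
      refine (Set.finite_Iic ⌊2 / δ⌋₊).subset ?_
      rintro _ ⟨d, hd, rfl⟩
      exact Nat.le_floor hd.2
    have hT : ({t : OnePoint D | t = ∞ ∨ ∃ d, t = OnePoint.some d ∧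
        d ∉ S ∪ {d : D | hh f d ≠ 0 ∧ (N d : ℝ) ≤ 2 / δ}} : Set (OnePoint D)) ∈
        𝓝 (∞ : OnePoint D) := by
      rw [mem_nhds_infty_iff]
      refine ⟨Or.inl rfl, (hS.union hS').subset ?_⟩
      intro d hd
      by_contra hcon
      exact hd (Or.inr ⟨d, rfl, hcon⟩)
    rw [nhds_prod_eq]
    refine mem_of_superset (prod_mem_prod (Metric.ball_mem_nhds b0 (half_pos hδ)) hT) ?_
    rintro ⟨b, t⟩ ⟨hb, ht⟩
    change dist (corr f N (b, t)) (corr f N (b0, ∞)) < ε
    rcases ht with ht | ⟨d, ht, hd⟩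
    · have ht' : t = ∞ := ht
      subst ht'
      rw [corr_infty, corr_infty, dist_self]
      exact hε
    · have ht' : t = OnePoint.some d := ht
      subst ht'
      have hd1 : d ∉ S := fun h => hd (Or.inl h)
      have hd2 : ¬ (hh f d ≠ 0 ∧ (N d : ℝ) ≤ 2 / δ) := fun h => hd (Or.inr h)
      rw [corr_infty, corr_some, dist_zero_right]
      rw [norm_smul, Real.norm_of_nonneg (le_max_left _ _)]
      by_cases h1 : dist (toB d) b0 < δ
      · have h2 := hdS d hd1 h1
        have h3 : max 0 (1 - (N d : ℝ) * dist (toB d) b) ≤ 1 := by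
          apply max_le zero_le_one
          have : 0 ≤ (N d : ℝ) * dist (toB d) b := by positivity
          linarith
        calc max 0 (1 - (N d : ℝ) * dist (toB d) b) * ‖hh f d‖ ≤ 1 * ‖hh f d‖ :=
              mul_le_mul_of_nonneg_right h3 (norm_nonneg _)
          _ < ε := by rw [one_mul]; exact h2
      · by_cases h2 : hh f d = 0
        · rw [h2, norm_zero, mul_zero]; exact hε
        · have h3 : 2 / δ < N d := by
            by_contra hcon
            exact hd2 ⟨h2, not_lt.1 hcon⟩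
          have h4 : δ / 2 ≤ dist (toB d) b := by
            have hb' : dist b b0 < δ / 2 := hb
            have := dist_triangle (toB d) b b0
            linarith [not_lt.1 h1]
          have h5 : 1 ≤ (N d : ℝ) * dist (toB d) b := by
            calc (1 : ℝ) = (2 / δ) * (δ / 2) := by field_simp
              _ ≤ (N d : ℝ) * dist (toB d) b := by
                apply mul_le_mul h3.le h4 (by positivity) (by positivity)
          rw [max_eq_left (by linarith), zero_mul]
          exact hε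
  | coe d =>
    rw [ContinuousAt, nhds_prod_eq, nhds_some, prod_pure, tendsto_map'_iff]
    have : Continuous (fun b : B => (max 0 (1 - (N d : ℝ) * dist (toB d) b)) • hh f d) := by
      fun_prop
    exact this.tendsto b0

end PEmb

lemma pEmbedded_A : PEmbedded.{0, v} A := by
  intro E _ _ _ f hf
  obtain ⟨N, hN⟩ := Set.countable_iff_exists_injOn.1 (countable_supp f hf)
  refine ⟨fun p => fi f p.1 + corr f N p,
    ((continuous_fi f hf).comp continuous_fst).add (continuous_corr f hf N hN), ?_⟩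
  rintro ⟨⟨b, t⟩, ht⟩
  rcases ht with ht | ht
  · have ht' : t = ∞ := ht
    subst ht'
    change fi f b + corr f N (b, ∞) = fi f b
    rw [corr_infty, add_zero]
  · have ht' : t = OnePoint.some (toD b) := ht
    subst ht'
    change fi f b + corr f N (b, OnePoint.some (toD b)) = fd f (toD b)
    rw [corr_some]
    have hb : toB (toD b) = b := rfl
    rw [hb, dist_self, mul_zero, sub_zero, max_eq_right zero_le_one, one_smul]
    change fi f b + (fd f (toD b) - fi f b) = _
    rw [add_sub_cancel]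

/-! ### Failure of strong P-embedding -/

/-- the function on `A × ML` -/
noncomputable def g (z : (A ×ˢ (Set.univ : Set ML) : Set (X × ML))) : ℝ :=
  open Classical in if z.1.1.2 ≠ ∞ ∧ ofML z.1.2 = z.1.1.1.1 then 1 else 0

lemma g_one {z : (A ×ˢ (Set.univ : Set ML) : Set (X × ML))}
    (h1 : z.1.1.2 ≠ ∞) (h2 : ofML z.1.2 = z.1.1.1.1) : g z = 1 := by
  unfold g; rw [if_pos ⟨h1, h2⟩]

lemma g_zero {z : (A ×ˢ (Set.univ : Set ML) : Set (X × ML))}
    (h : z.1.1.2 ≠ ∞ → ofML z.1.2 ≠ z.1.1.1.1) : g z = 0 := by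
  unfold g; rw [if_neg]; rintro ⟨h1, h2⟩; exact h h1 h2

lemma continuous_g : Continuous g := by
  apply IsLocallyConstant.continuous
  rw [IsLocallyConstant.iff_eventually_eq]
  rintro ⟨⟨⟨b0, t0⟩, y0⟩, hz⟩
  have hA : (b0, t0) ∈ A := hz.1
  rw [nhds_subtype_eq_comap, eventually_comap, nhds_prod_eq, nhds_prod_eq]
  rcases hA with ht | ht
  · have ht' : t0 = ∞ := ht
    subst ht'
    have h0 : g ⟨⟨⟨b0, ∞⟩, y0⟩, hz⟩ = 0 := g_zero (fun h => absurd rfl h)
    rw [h0]
    by_cases hy : Irrational (ofML y0)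
    · have hV : ({y0} : Set ML) ∈ 𝓝 y0 := (isOpen_singleton_irr hy).mem_nhds rfl
      have hT : ({OnePoint.some (toD ⟨ofML y0, hy⟩)}ᶜ : Set (OnePoint D)) ∈
          𝓝 (∞ : OnePoint D) := isOpen_compl_singleton.mem_nhds (infty_ne_coe _)
      refine mem_of_superset (prod_mem_prod (prod_mem_prod univ_mem hT) hV) ?_
      rintro ⟨⟨b, t⟩, y⟩ ⟨⟨-, ht⟩, hy1⟩ ⟨_, hz'⟩ rfl
      apply g_zero
      intro h1 h2
      rcases hz'.1 with h3 | h3
      · exact h1 h3
      · apply ht
        change t = _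
        have h3' : t = OnePoint.some (toD b) := h3
        have h4 : y = y0 := hy1
        subst h4
        have h5 : ofML y = b.1 := h2
        rw [h3']
        congr 1
        exact Subtype.ext h5.symm
    · have hne : b0.1 ≠ ofML y0 := fun h => hy (h ▸ b0.2)
      obtain ⟨U, V, hU, hV, hb, hy0, hUV⟩ := t2_separation hne
      have hU' : (Subtype.val ⁻¹' U : Set B) ∈ 𝓝 b0 :=
        (hU.preimage continuous_subtype_val).mem_nhds hb
      have hV' : (ofML ⁻¹' V : Set ML) ∈ 𝓝 y0 := (hV.preimage continuous_ofML).mem_nhds hy0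
      refine mem_of_superset (prod_mem_prod (prod_mem_prod hU' univ_mem) hV') ?_
      rintro ⟨⟨b, t⟩, y⟩ ⟨⟨hb', -⟩, hy1⟩ ⟨_, hz'⟩ rfl
      apply g_zero
      intro _ h2
      have h5 : ofML y = b.1 := h2
      exact disjoint_left.1 hUV hb' (h5 ▸ hy1)
  · have ht' : t0 = OnePoint.some (toD b0) := ht
    subst ht'
    have hT : ({OnePoint.some (toD b0)} : Set (OnePoint D)) ∈ 𝓝 (OnePoint.some (toD b0)) := by
      rw [nhds_some]; exact mem_pure.2 rfl
    by_cases hy : ofML y0 = b0.1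
    · have hV : ({y0} : Set ML) ∈ 𝓝 y0 :=
        (isOpen_singleton_irr (x := ofML y0) (hy ▸ b0.2)).mem_nhds rfl
      rw [g_one (z := ⟨⟨⟨b0, OnePoint.some (toD b0)⟩, y0⟩, hz⟩) (coe_ne_infty _) hy]
      refine mem_of_superset (prod_mem_prod (prod_mem_prod univ_mem hT) hV) ?_
      rintro ⟨⟨b, t⟩, y⟩ ⟨⟨-, ht⟩, hy1⟩ ⟨_, hz'⟩ rfl
      have h4 : y = y0 := hy1
      have h5 : t = OnePoint.some (toD b0) := ht
      subst h4 h5
      have h6 : b = b0 := by
        rcases hz'.1 with h3 | h3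
        · exact absurd h3 (coe_ne_infty _)
        · have : toD b0 = toD b := OnePoint.coe_injective h3
          exact this.symm
      subst h6
      exact g_one (coe_ne_infty _) hy
    · have hV : (ofML ⁻¹' {b0.1}ᶜ : Set ML) ∈ 𝓝 y0 :=
        (isOpen_compl_singleton.preimage continuous_ofML).mem_nhds hy
      rw [g_zero (z := ⟨⟨⟨b0, OnePoint.some (toD b0)⟩, y0⟩, hz⟩) (fun _ => hy)]
      refine mem_of_superset (prod_mem_prod (prod_mem_prod univ_mem hT) hV) ?_
      rintro ⟨⟨b, t⟩, y⟩ ⟨⟨-, ht⟩, hy1⟩ ⟨_, hz'⟩ rfl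
      have h5 : t = OnePoint.some (toD b0) := ht
      subst h5
      have h6 : b = b0 := by
        rcases hz'.1 with h3 | h3
        · exact absurd h3 (coe_ne_infty _)
        · have : toD b0 = toD b := OnePoint.coe_injective h3
          exact this.symm
      subst h6
      exact g_zero (fun _ => hy1)

lemma no_ext (F : X × ML → ℝ) (hF : Continuous F)
    (hFg : ∀ a : (A ×ˢ (Set.univ : Set ML) : Set (X × ML)), F a = g a) : False := by
  -- the sets of the Baire category argument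
  let S : ℕ → Set ℝ := fun n => {x | ∃ hx : Irrational x, ∀ b' : B, dist b'.1 x < 1 / ((n : ℝ) + 1) →
    1 / 2 < F ((b', OnePoint.some (toD ⟨x, hx⟩)), toML x)}
  have hS : ∀ x : ℝ, Irrational x → ∃ n, x ∈ S n := by
    intro x hx
    have h1 : F (((⟨x, hx⟩ : B), OnePoint.some (toD ⟨x, hx⟩)), toML x) = 1 := by
      have h2 := hFg ⟨(((⟨x, hx⟩ : B), OnePoint.some (toD ⟨x, hx⟩)), toML x),
        ⟨memA_some (toD ⟨x, hx⟩), trivial⟩⟩
      rw [h2]
      exact g_one (coe_ne_infty _) rfl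
    have h3 : Continuous (fun b' : B => F ((b', OnePoint.some (toD ⟨x, hx⟩)), toML x)) := by
      fun_prop
    have h4 : ∀ᶠ b' in 𝓝 (⟨x, hx⟩ : B), 1 / 2 < F ((b', OnePoint.some (toD ⟨x, hx⟩)), toML x) :=
      h3.continuousAt.eventually_const_lt (by change 1 / 2 < F _; rw [h1]; norm_num)
    obtain ⟨δ, hδ, hball⟩ := Metric.eventually_nhds_iff.1 h4
    obtain ⟨n, hn⟩ := exists_nat_one_div_lt hδ
    exact ⟨n, hx, fun b' hb' => hball (lt_trans (by exact hb') hn)⟩
  obtain ⟨i, hi⟩ := nonempty_interior_of_iUnion_of_closed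
    (f := (Sum.elim (fun n => closure (S n)) (fun q : ℚ => ({(q : ℝ)} : Set ℝ)) :
      ℕ ⊕ ℚ → Set ℝ))
    (by rintro (n | q)
        · exact isClosed_closure
        · exact isClosed_singleton)
    (by
      rw [eq_univ_iff_forall]
      intro x
      by_cases hx : Irrational x
      · obtain ⟨n, hn⟩ := hS x hx
        exact mem_iUnion.2 ⟨Sum.inl n, subset_closure hn⟩
      · obtain ⟨q, hq⟩ := not_not.1 hx
        exact mem_iUnion.2 ⟨Sum.inr q, hq.symm⟩)
  rcases i with n | q
  swap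
  · simp at hi
  have hi' : (interior (closure (S n))).Nonempty := hi
  obtain ⟨_, hq, ⟨q, rfl⟩⟩ := (Rat.denseRange_cast (𝕜 := ℝ)).exists_mem_open isOpen_interior hi'
    |> fun ⟨q, hq⟩ => (⟨(q : ℝ), hq, q, rfl⟩ :
      ∃ x : ℝ, x ∈ interior (closure (S n)) ∧ x ∈ range ((↑) : ℚ → ℝ))
  have hqirr : ¬ Irrational (q : ℝ) := Rat.not_irrational q
  have hn0 : (0 : ℝ) < 1 / ((n : ℝ) + 1) / 2 := by positivity
  obtain ⟨b', hb', hb'irr⟩ := dense_irrational.exists_dist_lt (q : ℝ) hn0
  -- continuity of `F` at `((b', ∞), q)`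
  have hF0 : F (((⟨b', hb'⟩ : B), (∞ : OnePoint D)), toML q) = 0 := by
    rw [hFg ⟨_, ⟨memA_infty _, trivial⟩⟩]
    exact g_zero (fun h => absurd rfl h)
  have h5 : ∀ᶠ p in 𝓝 (((⟨b', hb'⟩ : B), (∞ : OnePoint D)), toML q), F p < 1 / 2 :=
    hF.continuousAt.eventually_lt_const (by rw [hF0]; norm_num)
  rw [nhds_prod_eq, nhds_prod_eq] at h5
  obtain ⟨W, hW, V, hV, hWV⟩ := mem_prod_iff.1 h5
  obtain ⟨U, hU, T, hT, hUT⟩ := mem_prod_iff.1 hW
  rw [mem_nhds_infty_iff] at hT
  -- a neighbourhood of `q`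
  have hfin : (toB '' {b : D | (b : OnePoint D) ∉ T}).Finite := hT.2.image _
  have hfin' : (Subtype.val '' (toB '' {b : D | (b : OnePoint D) ∉ T}) : Set ℝ).Finite :=
    hfin.image _
  have hO1 : (Subtype.val '' (toB '' {b : D | (b : OnePoint D) ∉ T}) : Set ℝ)ᶜ ∈ 𝓝 (q : ℝ) := by
    apply hfin'.isClosed.isOpen_compl.mem_nhds
    rintro ⟨x, -, hx⟩
    exact hqirr (hx ▸ x.2)
  have hO2 := preimage_mem_nhds hqirr hV
  have hO3 : Metric.ball (q : ℝ) (1 / ((n : ℝ) + 1) / 2) ∈ 𝓝 (q : ℝ) := Metric.ball_mem_nhds _ hn0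
  obtain ⟨x, ⟨⟨hx1, hx2⟩, hx3⟩, hxS⟩ := mem_closure_iff_nhds.1 (interior_subset hq) _
    (inter_mem (inter_mem hO1 hO2) hO3)
  obtain ⟨hx, hxF⟩ := hxS
  have hxT : OnePoint.some (toD ⟨x, hx⟩) ∈ T := by
    by_contra hcon
    exact hx1 ⟨⟨x, hx⟩, ⟨toD ⟨x, hx⟩, hcon, rfl⟩, rfl⟩
  have h6 : F ((⟨b', hb'⟩, OnePoint.some (toD ⟨x, hx⟩)), toML x) < 1 / 2 := by
    have : ((((⟨b', hb'⟩ : B), OnePoint.some (toD ⟨x, hx⟩)), toML x) : X × ML) ∈ W ×ˢ V :=
      ⟨hUT ⟨mem_of_mem_nhds hU, hxT⟩, hx2⟩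
    exact hWV this
  have h7 := hxF ⟨b', hb'⟩ (by
    have h8 : dist x (q : ℝ) < 1 / ((n : ℝ) + 1) / 2 := hx3
    have h9 := dist_triangle b' (q : ℝ) x
    rw [dist_comm (q : ℝ) b'] at hb'irr
    rw [dist_comm x (q : ℝ)] at h8
    change dist b' x < _
    linarith)
  linarith

/-- A Čech-complete paracompact P-embedded subset that is not strongly P-embedded. -/
theorem example_spaces :
    T35Space X ∧ ParacompactSpace X ∧ IsClosed A ∧ CechComplete A ∧ ParacompactSpace A ∧
      PEmbedded.{0, v} A ∧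
      ∃ g : (A ×ˢ (Set.univ : Set ML) : Set (X × ML)) → ℝ, Continuous g ∧
        ¬ ∃ F : X × ML → ℝ, Continuous F ∧
          ∀ a : (A ×ˢ (Set.univ : Set ML) : Set (X × ML)), F a = g a :=
  ⟨inferInstance, inferInstance, isClosed_A, cechComplete_A,
    isClosed_A.isClosedEmbedding_subtypeVal.paracompactSpace, pEmbedded_A,
    g, continuous_g, fun ⟨F, hF, hFg⟩ => no_ext F hF hFg⟩

/-- There are a space `X`, a Čech-complete paracompact subset `A` that is P-embedded in `X`,
and a space `Y` for which `A × Y` is not P-embedded in `X × Y`. -/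
theorem result : ∃ (X : Type) (_ : TopologicalSpace X) (A : Set X) (Y : Type)
    (_ : TopologicalSpace Y),
    T35Space X ∧ ParacompactSpace X ∧ IsClosed A ∧
    CechComplete A ∧ ParacompactSpace A ∧ PEmbedded.{0, v} A ∧
    ¬ PEmbedded.{0, 0} (A ×ˢ (Set.univ : Set Y)) ∧ ¬ StronglyPEmbedded.{0, 0, 0} A := by
  obtain ⟨h1, h2, h3, h4, h5, h6, g, hg, hno⟩ := example_spaces.{v}
  have h7 : ¬ PEmbedded.{0, 0} (A ×ˢ (Set.univ : Set ML)) := fun h => hno (h ℝ g hg)
  exact ⟨X, inferInstance, A, ML, inferInstance, h1, h2, h3, h4, h5, h6, h7,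
    fun h => h7 (h ML)⟩

end Pool.Agent.Results.MP_4b6139_gt.Counterexample
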